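import Pool.Agent.TH152.HY.QMain

/-!
The generalised Green-Griffiths-Lang conjecture for quasi-projective varieties with a morphism to a
projective space of any dimension, generically finite onto the image, which is highly ramified over
a hyperplane arrangement which is not reducible.
-/

set_option autoImplicit false

namespace Pool.Agent.Results.MP_64ff02_ag.HighlyRamifiedGGL

open Pool.Agent.W602.Cov Pool.Agent.W602.Cov.R Pool.Agent.W602.GT Pool.Agent.TH152.HY MvPolynomial

/-- Let `ℓ i = 0` be finitely many hyperplanes in `P^n`, `n ≥ 1`, which form an arrangement which is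
not reducible, and let `n (n + 1) (n + 2) / 2 < m`.

(1) Let `X`, `D` be closed subsets of `P^N × P^n`, `X` irreducible of dimension `d > 0`, with function
field `K` and generic point `(a, b)`, and not contained in `D`. Assume that the projection of `X` to
`P^n` is generically finite onto its image (`halg`), that the image is not contained in the
exceptional set of the arrangement, and that the projection of `X - D` is ramified to order at least
`m` over the arrangement. Then `X - D` is of log general type, and there is a proper closed subset
`G = 0` of `X - D` such that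

* all holomorphic maps from the punctured disc to `X - D` whose image is not contained in `G = 0`
  extend to the disc;
* all nonconstant entire curves in `X - D` lie in `G = 0`;
* all closed subvarieties of `X - D` of positive dimension which are not contained in `G = 0` are of
  log general type.

(2) The image of `X` is not contained in the exceptional set if it is not contained in a hyperplane
(and all `ℓ i` are nonzero). -/
theorem result (n q m : ℕ) (hn : 1 ≤ n) (ℓ : Fin q → Form n) (hr : ¬ Reducible ℓ)
    (hm : n * (n + 1) * (n + 2) < 2 * m) :
    (∀ (N d : ℕ) (X D : BiSet N n) (K : Type) [Field K] [Algebra ℂ K] (a : Fin (N + 1) → K)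
      (b : Fin (n + 1) → K), RamifiedOff X D ℓ m → X.FunctionField K a b → ¬ D.Mem a b →
      Algebra.trdeg ℂ K = d → 0 < d →
      Algebra.IsAlgebraic
        (IntermediateField.adjoin ℂ {f : K | ∃ i j, b j ≠ 0 ∧ f = b i / b j}) K →
      ¬ Exc ℓ b →
      LogGeneralType ℂ K d (CentreIn D a b) ∧
      ∃ (G : BiPoly N n) (E E' : ℕ), BiHom G E E' ∧
        (∃ u v, QMem X D u v ∧ eval (Sum.elim u v) G ≠ 0) ∧
        PicardOff X D G ∧ BrodyOff X D G ∧ LangOff X D G) ∧
    ∀ (K : Type) [Field K] [Algebra ℂ K] (b : Fin (n + 1) → K), (∀ i, ℓ i ≠ 0) →
      LinearIndependent ℂ b → ¬ Exc ℓ b :=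
  ⟨fun _ _ _ _ _ _ _ _ _ hram hK hD htr hd halg hE => main hn hr hm hram hK halg htr hd hE hD,
    fun _ _ _ _ hℓ hb => not_exc hℓ hr hb⟩

end Pool.Agent.Results.MP_64ff02_ag.HighlyRamifiedGGL
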