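import Mathlib
import Pool.Agent.TH143.GT.Fin

/-!
MP_64ff02_ag, Q1: the four properties for curves whose homogeneous coordinates are solutions of
linear differential equations.
-/

set_option autoImplicit false

namespace Pool.Agent.Results.MP_64ff02_ag.LinearDifferentialGGL

open MvPolynomial Metric Set Filter Topology FF
open Pool.Agent.W602.GT Pool.Agent.TH143 Pool.Agent.TH143.GT Pool.Agent.W603.BP
  Pool.Agent.W603.BPR Pool.Agent.W603.GR Pool.Agent.W603.PV

/-- Let `X` be the quasi-projective variety with the homogeneous ideal `p` and the boundary `Q = 0`.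
Consider the holomorphic maps to `X` from the punctured disc, or from the complex plane, whose
vectors of homogeneous coordinates come from a linear system of differential equations with
coefficients meromorphic at the origin, or at infinity, respectively; this is the case if each
coordinate satisfies a scalar linear differential equation with coefficients meromorphic at the
origin, or with polynomial coefficients, respectively.

(1) If the subvarieties of positive dimension of `X` which are not contained in `G = 0` are of log
general type, then such maps from the punctured disc extend unless the image is contained in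
`G = 0`, and such entire curves are contained in `G = 0`.

(2) If `X` is of log general type, then such maps from the punctured disc extend if they are
Zariski-dense, and such entire curves are not Zariski-dense. -/
theorem result {n : ℕ} (p : Ideal (MvPolynomial (Fin (n + 1)) ℂ)) (hp : IsHomog p)
    (Q : MvPolynomial (Fin (n + 1)) ℂ) (q : ℕ) (hQ : Q.IsHomogeneous q) :
    (∀ G : MvPolynomial (Fin (n + 1)) ℂ, IsForm G → SubLogGT p Q q G →
      (∀ f, PCurve p Q f → LinSys f → (∃ z ∈ ball (0 : ℂ) 1 \ {0}, eval (f z) G ≠ 0) →
        Extends f) ∧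
      ∀ f, EntireCurve p Q f → LinSys (fun w => f w⁻¹) → ∀ z, eval (f z) G = 0) ∧
    (∀ (K : Type) [Field K] [Algebra ℂ K] (w : ℕ) (y : Fin (n + 1) → K), FunField p Q K w y →
      LogGeneralType ℂ K w (OffQ Q q y) →
      (∀ f, PCurve p Q f → LinSys f → ZDense p f (ball 0 1 \ {0}) → Extends f) ∧
      ∀ f, EntireCurve p Q f → LinSys (fun w => f w⁻¹) → ¬ ZDense p f univ) ∧
    (∀ f : ℂ → Fin (n + 1) → ℂ, PCurve p Q f → (∀ j, LinODE (fun z => f z j)) → LinSys f) ∧
    (∀ f : ℂ → Fin (n + 1) → ℂ, EntireCurve p Q f → (∀ j, PolODE (fun z => f z j)) →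
      LinSys (fun w => f w⁻¹)) := by
  have hset : ∀ z : ℂ, z ∈ ball (0 : ℂ) 1 \ {0} ↔ z ∈ PB 1 := fun z => mem_disc
  refine ⟨fun G hG h => ⟨fun f hf hl hfG => strong_picard hp hQ hG h hf hl hfG,
    fun f hf hl z => strong_brody hp hQ hG h hf hl z⟩, ?_, ?_, ?_⟩
  · intro K _ _ w y hy h
    refine ⟨fun f hf hl hd => ?_, fun f hf hl hd => ?_⟩
    · have hd' : ZDense p f (PB 1) := fun H hH h => hd H hH fun z hz => h z ((hset z).1 hz)
      have hgp : GenPt f (PB 1) K w y := hy.genPt
        (fun z hz => (hf.2 z ((hset z).2 hz)).2.1) hd'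
      by_contra hext
      obtain ⟨r, hr⟩ := fam_of_ess hgp hf.an (fun w hw => (hf.2 w ((hset w).2 hw)).1) hl hQ
        (fun z hz => (hf.2 z ((hset z).2 hz)).2.2) hext
      exact hr (allFlat_gt hgp hQ h r)
    · obtain ⟨hdf, hne, hfQ, hnc⟩ := ent_data hf
      have hgp : GenPt f univ K w y := hy.genPt (fun z _ => (hf.2.1 z).2.1) hd
      obtain ⟨r, hr⟩ := fam_of_entire hgp hdf hne hl hQ hfQ hnc
      exact hr (allFlat_gt (hgp.inv hdf) hQ h r)
  · intro f hf hl
    exact linSys_of_linODE f one_pos hf.an hl
  · intro f hf hl
    exact linSys_of_polODE f (ent_data hf).1 hl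

end Pool.Agent.Results.MP_64ff02_ag.LinearDifferentialGGL
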