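import Mathlib
import Pool.Agent.TH710.ND.Sp

/-!
MP_64ff02_ag, Q1: the four properties of the generalised Green-Griffiths-Lang conjecture for
quasi-projective varieties given by nested sums of high powers of linear forms.
-/

set_option autoImplicit false

namespace Pool.Agent.Results.MP_64ff02_ag.NestedFourProperties

open FF MvPolynomial Pool.Agent.H159R3.War Pool.Agent.H159R3.WarLog Pool.Agent.W603.BP
  Pool.Agent.W603.BPW Pool.Agent.W603.GW Pool.Agent.W603.GX Pool.Agent.W603.GY Pool.Agent.W602.GT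
open Pool.Agent.TH710.NW (Tower TowerLog)
open Pool.Agent.TH710.ND (IsNested)

/-- `X` is strongly of log general type: outside a hypersurface `G = 0` which does not contain `X`,
all subvarieties of positive dimension are of log general type. -/
def StronglyLgt {n : ℕ} {ι κ : Type} (F : ι → MvPolynomial (Fin (n + 1)) ℂ)
    (Q : κ → MvPolynomial (Fin (n + 1)) ℂ) : Prop :=
  ∃ G : MvPolynomial (Fin (n + 1)) ℂ, (∃ d, G.IsHomogeneous d) ∧ (∃ x ∈ Pts F Q, eval x G ≠ 0) ∧
    ∀ (K : Type) [Field K] [Algebra ℂ K] (w : ℕ) (y : Fin (n + 1) → K), 1 ≤ w →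
      SubVarQ F Q K w y → val y G ≠ 0 → LogGeneralType ℂ K w (OffAny Q y)

theorem strongly_iff {n : ℕ} {ι κ : Type} (F : ι → MvPolynomial (Fin (n + 1)) ℂ)
    (Q : κ → MvPolynomial (Fin (n + 1)) ℂ) : StronglyLgt F Q ↔ SpAlgQ F Q ≠ Pts F Q := by
  constructor
  · rintro ⟨G, hG, ⟨x, hx, hGx⟩, h⟩ heq
    have h1 : x ∈ SpAlgQ F Q := by rw [heq]; exact hx
    refine hGx (h1.2 G hG fun K _ _ w y hw hy hgt => ?_)
    by_contra hne
    exact hgt (h K w y hw hy hne)
  · intro h
    obtain ⟨x, hx, hxS⟩ : ∃ x ∈ Pts F Q, x ∉ SpAlgQ F Q := by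
      by_contra hcon
      push Not at hcon
      exact h (Set.Subset.antisymm (fun x hx => hx.1) hcon)
    have h1 : ¬ ∀ G : MvPolynomial (Fin (n + 1)) ℂ, (∃ d, G.IsHomogeneous d) →
      (∀ (K : Type) [Field K] [Algebra ℂ K] (w : ℕ) (y : Fin (n + 1) → K), 1 ≤ w →
        SubVarQ F Q K w y → ¬ LogGeneralType ℂ K w (OffAny Q y) → val y G = 0) →
        eval x G = 0 := fun h2 => hxS ⟨hx, h2⟩
    push Not at h1
    obtain ⟨G, hG, hG1, hGx⟩ := h1
    refine ⟨G, hG, ⟨x, hx, hGx⟩, fun K _ _ w y hw hy hne => ?_⟩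
    by_contra hgt
    exact hne (hG1 K w y hw hy hgt)

/-- Let `X` be the irreducible quasi-projective variety `{F_i = 0, Q_j ≠ 0}` in `P^n`, where the
`F_i` and the (finitely many) `Q_j` are nested sums of high powers of linear forms.

If the exponents are at least quadratic in the numbers of summands: `X` is pseudo-Picard hyperbolic
if and only if it is pseudo-Brody hyperbolic, and both follow if `X` is of log general type, or
strongly of log general type.

If at each of at most `h + 1` levels there are at most `s` summands and the exponents are at least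
`(n + 1) (h + 1) (2 s + 1) ^ 5`, then the four properties are equivalent: `X` is of log general
type; pseudo-Picard hyperbolic; pseudo-Brody hyperbolic; strongly of log general type. -/
theorem result {n : ℕ} {ι κ : Type} [Finite κ] (F : ι → MvPolynomial (Fin (n + 1)) ℂ)
    (Q : κ → MvPolynomial (Fin (n + 1)) ℂ) (hF : ∀ i, Tower (F i))
    (hQ : ∀ j, ∃ d, TowerLog (Q j) d) {K : Type} [Field K] [Algebra ℂ K] {w : ℕ}
    {y : Fin (n + 1) → K} (hy : SubVarQ F Q K w y) (hg : GenericQ F Q y) :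
    ((PseudoPicard F Q ↔ PseudoBrody F Q) ∧
      (LogGeneralType ℂ K w (OffAny Q y) → PseudoPicard F Q) ∧
      (StronglyLgt F Q → PseudoPicard F Q)) ∧
    ∀ s N h : ℕ, (∀ i, IsNested s N h (F i)) → (∀ j, IsNested s N h (Q j)) →
      (n + 1) * ((h + 1) * (2 * s + 1) ^ 5) ≤ N →
      [LogGeneralType ℂ K w (OffAny Q y), PseudoPicard F Q, PseudoBrody F Q,
        StronglyLgt F Q].TFAE := by
  have hF' : ∀ i, Pool.Agent.TH710.NW.Stab (F i) := fun i => (hF i).stab
  have hQ' : ∀ j, ∃ d, Pool.Agent.TH710.NW.StabLog (Q j) d := fun j =>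
    (hQ j).imp fun _ h => h.stab
  have h3 := Pool.Agent.TH710.NW.pseudo_iff F Q hF' hQ'
  have h4 := Pool.Agent.TH710.NW.main F Q hF' hQ'
  have key : PseudoBrody F Q ↔ gmPoints F Q ≠ Pts F Q := by
    rw [h4]
    constructor
    · rintro ⟨x, hx, hno⟩ heq
      rw [← heq] at hx
      obtain ⟨q, hq⟩ := Pool.Agent.TH710.NW.exists_line F Q hF' hQ' hx
      exact hno q hq
    · intro hne
      by_contra hcon
      push Not at hcon
      apply hne
      apply Set.Subset.antisymm
      · rintro x ⟨v, t, hv, ht, rfl⟩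
        exact hv.2.1 t ht
      · intro x hx
        obtain ⟨q, hq⟩ := hcon x hx
        obtain ⟨v, hv, hv1⟩ := torus_of_line F Q hq
        exact ⟨v, 1, hv, one_ne_zero, hv1⟩
  have h5 : LogGeneralType ℂ K w (OffAny Q y) → PseudoPicard F Q := fun h =>
    h3.2 (key.2 (Pool.Agent.TH710.NW.ne_of_lgt hF' hQ' hy hg h))
  have h6 : StronglyLgt F Q → PseudoPicard F Q := by
    intro h
    rw [strongly_iff] at h
    refine h3.2 (key.2 fun heq => h (Set.Subset.antisymm (fun x hx => hx.1) ?_))
    rw [← heq]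
    exact Pool.Agent.TH710.NW.gm_sub_alg F Q hF' hQ'
  refine ⟨⟨h3, h5, h6⟩, fun s N h hFn hQn hN => ?_⟩
  tfae_have 1 → 2 := h5
  tfae_have 2 → 3 := h3.1
  tfae_have 3 → 1 := fun hb => Pool.Agent.TH710.ND.lgt_of_gm_ne hFn hQn hN (key.1 hb) hy hg
  tfae_have 4 → 2 := h6
  tfae_have 3 → 4 := by
    intro hb
    rw [strongly_iff]
    intro heq
    apply key.1 hb
    refine Set.Subset.antisymm ?_ ?_
    · rintro x ⟨v, t, hv, ht, rfl⟩
      exact hv.2.1 t ht
    · rw [← heq]
      exact Pool.Agent.TH710.ND.alg_sub_gm F Q hFn hQn hN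
  tfae_finish

end Pool.Agent.Results.MP_64ff02_ag.NestedFourProperties
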