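import Mathlib
import Pool.Agent.TH8.QD.Log

/-!
MP_64ff02_ag, Q1: entire curves whose homogeneous coordinates satisfy linear `q`-difference
equations.
-/

set_option autoImplicit false

namespace Pool.Agent.Results.MP_64ff02_ag.QDifferenceGGL

open MvPolynomial Metric Set Filter Topology FF
open Pool.Agent.W602.GT Pool.Agent.TH143 Pool.Agent.TH143.GT Pool.Agent.W603.BP
  Pool.Agent.W603.BPR Pool.Agent.W603.GR Pool.Agent.W603.PV Pool.Agent.TH8.QD

/-- Let `X` be the quasi-projective variety with the homogeneous ideal `p` and the boundary `Q = 0`.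
Let `q` be a nonzero complex number with `|q| ≠ 1`, or let `|q| = 1`, `q` not a root of unity.
Consider the entire curves in `X` whose homogeneous coordinates satisfy linear `q`-difference
equations with polynomial coefficients; if `|q| = 1`, we suppose in addition that `Q` along the curve
satisfies a `q`-difference equation of order one (this is the case if `X` is projective, `Q = 1`).

(1) If the subvarieties of positive dimension of `X` which are not contained in `G = 0` are of log
general type, then the image of such a curve is contained in `G = 0`.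

(2) If `X` is of log general type, then such curves are not Zariski-dense. -/
theorem result {n : ℕ} (p : Ideal (MvPolynomial (Fin (n + 1)) ℂ)) (hp : IsHomog p)
    (Q : MvPolynomial (Fin (n + 1)) ℂ) (e : ℕ) (hQ : Q.IsHomogeneous e) (q : ℂ) (hq0 : q ≠ 0)
    (hqr : ∀ m : ℕ, 0 < m → q ^ m ≠ 1) :
    (∀ G : MvPolynomial (Fin (n + 1)) ℂ, IsForm G → SubLogGT p Q e G →
      ∀ f, EntireCurve p Q f → (∀ j, QHol q (fun z => f z j)) →
        (‖q‖ ≠ 1 ∨ QHyp q (fun z => eval (f z) Q)) → ∀ z, eval (f z) G = 0) ∧
    (∀ (K : Type) [Field K] [Algebra ℂ K] (w : ℕ) (y : Fin (n + 1) → K), FunField p Q K w y →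
      LogGeneralType ℂ K w (OffQ Q e y) →
      ∀ f, EntireCurve p Q f → (∀ j, QHol q (fun z => f z j)) →
        (‖q‖ ≠ 1 ∨ QHyp q (fun z => eval (f z) Q)) → ¬ ZDense p f univ) := by
  refine ⟨fun G hG h f hf hl hq z => strong_brody_q hp hQ hG h hf hq0 hqr hl hq z, ?_⟩
  intro K _ _ w y hy h f hf hl hq hd
  obtain ⟨hdf, hne, hfQ, hnc⟩ := ent_data hf
  have hgp : GenPt f univ K w y := hy.genPt (fun z _ => (hf.2.1 z).2.1) hd
  obtain ⟨r, hr⟩ := fam_q hq0 hqr hdf hgp hl hQ hne hfQ (qhyp_of_norm hq0 hq hdf hl hfQ) hnc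
  exact hr (allFlat_gt (hgp.inv hdf) hQ h r)

end Pool.Agent.Results.MP_64ff02_ag.QDifferenceGGL
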